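import Mathlib
import Pool.Agent.Helper43.Gr.Goals
import Pool.Agent.Helper43.Gm.E

/-! Packet Gr R2 (filling). -/

set_option autoImplicit false

namespace Pool.Agent.Helper43.Gr.PkR2

open Finset
open Pool.Agent.Helper43.Gm (st mv nn SS Run Pri)
open Pool.Agent.Helper43.Gm.PkE (KK ek ex ek_lt ek_ge run_ext nn_ext lt_KK sum_eq_SS old_drop
  le_of_sum sum_desc)
open Pool.Agent.Helper43.Gm.PkD (od nn_eq od_le)

theorem sum_succ_tri (R : ℕ) : ∑ y ∈ range R, (y + 1) = (R + 1).choose 2 := by
  induction R with
  | zero => simp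
  | succ R ih =>
    have h := Nat.choose_succ_succ' (R + 1) 1
    rw [Nat.choose_one_right] at h
    have h' : (R + 1 + 1).choose 2 = R + 1 + (R + 1).choose 2 := h
    rw [sum_range_succ, ih, h']
    omega

theorem sum_tri (R : ℕ) : ∑ y ∈ range R, (R - y) = (R + 1).choose 2 := by
  rw [← sum_succ_tri, ← sum_range_reflect]
  apply sum_congr rfl
  intro y hy
  rw [mem_range] at hy
  omega

theorem goalR2 (hB : Pool.Agent.Helper43.Gm.GoalB) (hC : Pool.Agent.Helper43.Gm.GoalC)
    (h1 : GoalR1) : GoalR2 := by
  intro M R N ν hM1 hR1 hν1 hanti hS hsum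
  obtain ⟨κ, x, hR, hlh, hgood, hbad⟩ := h1 M R ν hM1 hν1 hanti hS
  set M' := max M (ν 0) with hM'
  obtain ⟨π, ε, hpri⟩ := hB M' R ν κ x hR
  refine ⟨nn κ x ν, π, ε, hpri N, ?_⟩
  set K := KK κ x R with hK
  suffices hKN : K ≤ N by
    intro y hy
    rw [sum_eq_SS N (fun c hc => lt_of_lt_of_le (lt_KK hR hy hc) hKN)]
    exact (hlh y hy).1
  rcases Nat.lt_or_ge R 2 with hR2 | hR2
  · -- one row
    have hRe : R = 1 := by omega
    subst hRe
    have hN : 1 ≤ N := by
      by_contra hN
      have : N = 0 := by omega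
      subst this
      rw [range_zero, sum_empty] at hsum
      nlinarith
    have hSS0 : SS κ x ν 0 = 1 := hgood 0 (by omega) (Or.inl rfl)
    have hSS : SS κ x ν 0 = ∑ c ∈ range (κ 0), nn κ x ν c 0 + x 0 := by
      unfold SS
      rw [sum_range_succ]
      congr 1
      rw [nn_eq, if_neg (lt_irrefl _), if_pos rfl]
    have hnn : ∀ c ∈ range (κ 0), 1 ≤ nn κ x ν c 0 := by
      intro c hc
      rw [mem_range] at hc
      unfold nn
      rw [if_neg (by omega), if_neg (by omega)]
      have e1 : (mv κ x ν c 0).card = 0 := by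
        unfold mv
        simp
      have := hν1 c
      omega
    have h2 : κ 0 ≤ ∑ c ∈ range (κ 0), nn κ x ν c 0 := by
      calc κ 0 = ∑ c ∈ range (κ 0), 1 := by simp
        _ ≤ _ := sum_le_sum hnn
    have h3 : K ≤ 1 := by
      rw [hK]
      unfold KK
      simp only [Nat.sub_self]
      split_ifs <;> omega
    omega
  · have hE := run_ext hR hR1 (R + M')
    have htot : ∀ c ∈ range K, ∑ y ∈ range (R + M'), nn (ek κ x R) (ex x R) ν c y =
        (ν c + 1).choose 2 := by
      intro c hc
      rw [mem_range] at hc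
      exact hC M' (R + M') ν _ _ hE c R (by omega) (by rw [ek_ge le_rfl]; exact hc) le_rfl
    apply le_of_sum hν1
    rw [← sum_congr rfl htot, sum_comm, sum_range_add]
    have hrows : ∑ y ∈ range R, ∑ c ∈ range K, nn (ek κ x R) (ex x R) ν c y =
        ∑ y ∈ range R, SS κ x ν y := by
      apply sum_congr rfl
      intro y hy
      rw [mem_range] at hy
      rw [sum_congr rfl (fun c _ => nn_ext hy)]
      exact sum_eq_SS K (fun c hc => lt_KK hR hy hc)
    rw [hrows]
    set U : ℕ → ℕ := fun t => ∑ c ∈ range K, nn (ek κ x R) (ex x R) ν c (R + t) with hU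
    have hUdrop : ∀ t, U (t + 1) ≤ U t - 1 := by
      intro t
      simp only [hU]
      rw [show R + (t + 1) = R + t + 1 by omega]
      exact old_drop (by rw [ek_ge (by omega)]) (by rw [ek_ge (by omega)])
    have hUt : ∀ t, U t ≤ U 0 - t := by
      intro t
      induction t with
      | zero => omega
      | succ t ih => have := hUdrop t; omega
    obtain ⟨r, hr⟩ : ∃ r, R = r + 1 := ⟨R - 1, by omega⟩
    have hr' : R - 1 = r := by omega
    have hSSr := hlh r (by omega)
    have hx : x r = 0 := hbad r (by omega) (by omega) (by omega)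
    have hU0 : U 0 ≤ SS κ x ν r - 1 := by
      have hKr : K = κ r := by rw [hK, KK, hr', if_neg (by omega), add_zero]
      have hold : ∑ c ∈ range (κ r), nn (ek κ x R) (ex x R) ν c (r + 1) ≤
          ∑ c ∈ range (κ r), nn (ek κ x R) (ex x R) ν c r - 1 := by
        apply old_drop
        · rw [ek_lt (by omega)]
        · rw [ek_ge (by omega)]; omega
      rw [← hr, sum_congr rfl (fun c _ => nn_ext (show r < R by omega))] at hold
      have hSS : SS κ x ν r = ∑ c ∈ range (κ r), nn κ x ν c r + x r := by
        unfold SS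
        rw [sum_range_succ]
        congr 1
        rw [nn_eq, if_neg (lt_irrefl _), if_pos rfl]
      simp only [hU]
      rw [add_zero, hKr]
      omega
    -- the excess
    have hex : ∑ y ∈ range R, SS κ x ν y ≤ (R + 1).choose 2 + M * (2 * M - 1) := by
      have h2 : ∀ y ∈ range R, SS κ x ν y ≤ (R - y) +
          (if y ∈ Ico (R - (2 * M - 1)) R then M else 0) := by
        intro y hy
        rw [mem_range] at hy
        split_ifs with h3
        · exact (hlh y hy).2
        · rw [mem_Ico] at h3
          have h4 : y = 0 ∨ y + 2 * M ≤ R := by omega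
          rw [hgood y hy h4]
          omega
      refine (sum_le_sum h2).trans ?_
      rw [sum_add_distrib, sum_tri]
      refine Nat.add_le_add_left ?_ _
      rw [← sum_filter, sum_const, smul_eq_mul, mul_comm]
      refine Nat.mul_le_mul_left _ ?_
      calc ((range R).filter (fun y => y ∈ Ico (R - (2 * M - 1)) R)).card
          ≤ (Ico (R - (2 * M - 1)) R).card := by
            apply card_le_card
            intro y hy
            exact (mem_filter.1 hy).2
        _ ≤ 2 * M - 1 := by
            rw [Nat.card_Ico]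
            omega
    have h3 : ∑ t ∈ range M', U t ≤ ∑ t ∈ range M', (M + 1 - 1 - t) := by
      apply sum_le_sum
      intro t _
      have := hUt t
      omega
    have h4 := sum_desc (M + 1) M'
    have h5 : ∑ t ∈ range M', ∑ c ∈ range K, nn (ek κ x R) (ex x R) ν c (R + t) =
        ∑ t ∈ range M', U t := rfl
    rw [h5]
    obtain ⟨m, rfl⟩ : ∃ m, M = m + 1 := ⟨M - 1, by omega⟩
    have h6 : (m + 1) * (2 * (m + 1) - 1) = 2 * m * m + 3 * m + 1 := by
      rw [show 2 * (m + 1) - 1 = 2 * m + 1 by omega]
      ring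
    have h7 : (m + 1 + 1) * (m + 1 + 1 - 1) = m * m + 3 * m + 2 := by
      rw [show m + 1 + 1 - 1 = m + 1 by omega]
      ring
    have h8 : 5 * (m + 1) * (m + 1) = 5 * m * m + 10 * m + 5 := by ring
    have h9 : 2 * m * m = 2 * (m * m) := by ring
    have h10 : 5 * m * m = 5 * (m * m) := by ring
    omega

end Pool.Agent.Helper43.Gr.PkR2
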